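import Mathlib

set_option autoImplicit false

namespace Pool.Agent.Results.MP_b9ebd9_co.TietzeCounterexample

open SimpleGraph

/-- `G` is 3-connected: more than 3 vertices, and deleting fewer than 3 vertices leaves a
connected graph. -/
def ThreeConnected {V : Type} [Fintype V] (G : SimpleGraph V) : Prop :=
  3 < Fintype.card V ∧
    ∀ S : Finset V, S.card < 3 → (G.induce ((↑S : Set V)ᶜ)).Connected

/-- The lengths of the closed walks of `G` that traverse every edge at least once. -/
def tourLengths {V : Type} (G : SimpleGraph V) : Set ℕ :=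
  {N | ∃ (v : V) (p : G.Walk v v), (∀ e ∈ G.edgeSet, e ∈ p.edges) ∧ p.length = N}

/-- The total lengths of the finite families of cycles of `G` such that every edge of `G` lies in
at least one member of the family. -/
def coverLengths {V : Type} (G : SimpleGraph V) : Set ℕ :=
  {N | ∃ (n : ℕ) (F : Fin n → Σ u : V, G.Walk u u), (∀ i, (F i).2.IsCycle) ∧
    (∀ e ∈ G.edgeSet, ∃ i, e ∈ (F i).2.edges) ∧ ∑ i, (F i).2.length = N}

/-- `CPP(G)`: the minimum length of a closed walk traversing every edge at least once. -/
noncomputable def CPP {V : Type} (G : SimpleGraph V) : ℕ := sInf (tourLengths G)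

/-- `SCC(G)`: the minimum total length of a family of cycles covering all edges. -/
noncomputable def SCC {V : Type} (G : SimpleGraph V) : ℕ := sInf (coverLengths G)

/-- The edge cut of `S`: the edges between `S` and its complement. -/
def edgeCut {V : Type} (G : SimpleGraph V) (S : Set V) : Set (Sym2 V) :=
  {e | e ∈ G.edgeSet ∧ ∃ a ∈ S, ∃ b ∉ S, e = s(a, b)}

/-- `w` restricts to a map `E(G) → {1, 2}` for which every edge cut has even total weight. -/
def IsEulerianWeight {V : Type} (G : SimpleGraph V) (w : Sym2 V → ℕ) : Prop :=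
  (∀ e ∈ G.edgeSet, w e = 1 ∨ w e = 2) ∧ ∀ S : Set V, Even (∑ᶠ e ∈ edgeCut G S, w e)

/-- `G` is cycle `w`-coverable: some finite family of cycles has each edge `e` in exactly `w e`
of its members. -/
def IsCoverable {V : Type} [DecidableEq V] (G : SimpleGraph V) (w : Sym2 V → ℕ) : Prop :=
  ∃ (n : ℕ) (F : Fin n → Σ u : V, G.Walk u u), (∀ i, (F i).2.IsCycle) ∧
    ∀ e ∈ G.edgeSet, (Finset.univ.filter (fun i => e ∈ (F i).2.edges)).card = w e

/-- `G` has the cycle cover property: it is cycle `w`-coverable for every eulerian `w`. -/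
def CycleCoverProperty {V : Type} [DecidableEq V] (G : SimpleGraph V) : Prop :=
  ∀ w : Sym2 V → ℕ, IsEulerianWeight G w → IsCoverable G w

/-! ### Parity of closed walks -/

lemma even_count {V : Type} [DecidableEq V] {G : SimpleGraph V} {u v : V} (p : G.Walk u v)
    (x : V) : Even (p.edges.countP (fun e => decide (x ∈ e)) + (if x = u then 1 else 0) +
      (if x = v then 1 else 0)) := by
  induction p with
  | nil =>
    split_ifs <;> simp
  | @cons a b c hab p ih =>
    rw [Walk.edges_cons, List.countP_cons]
    have hne : a ≠ b := hab.ne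
    by_cases h1 : x = a
    · subst h1
      have h2 : ¬ x = b := hne
      simp only [h2, if_false, if_true, Sym2.mem_mk_left, decide_true] at ih ⊢
      rw [Nat.even_iff] at *
      split_ifs at * <;> omega
    · by_cases h2 : x = b
      · subst h2
        simp only [h1, if_false, if_true, Sym2.mem_mk_right, decide_true] at ih ⊢
        rw [Nat.even_iff] at *
        split_ifs at * <;> omega
      · have h3 : ¬ x ∈ s(a, b) := by
          simp [h1, h2]
        simp only [h1, h2, h3, if_false, decide_false] at ih ⊢
        rw [Nat.even_iff] at *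
        split_ifs at * <;> simp_all

lemma even_closed {V : Type} [DecidableEq V] {G : SimpleGraph V} {u : V} (p : G.Walk u u)
    (x : V) : Even (p.edges.countP (fun e => decide (x ∈ e))) := by
  have h := even_count p x
  rw [Nat.even_iff] at *
  split_ifs at h <;> omega


/-! ### The lower bound -/

lemma sum_countP {V : Type} [Fintype V] [DecidableEq V] (L : List (Sym2 V))
    (hL : ∀ e ∈ L, ¬ e.IsDiag) :
    ∑ v : V, L.countP (fun e => decide (v ∈ e)) = 2 * L.length := by
  induction L with
  | nil => simp
  | cons e L ih =>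
    simp only [List.countP_cons, Finset.sum_add_distrib, List.length_cons]
    rw [ih (fun e' he' => hL e' (List.mem_cons_of_mem _ he'))]
    have h2 : ∑ v : V, (if decide (v ∈ e) = true then 1 else 0) = 2 := by
      have hd := hL e List.mem_cons_self
      induction e using Sym2.ind with
      | _ a b =>
        have hab : a ≠ b := by simpa using hd
        simp only [decide_eq_true_eq, Sym2.mem_iff]
        rw [← Finset.card_filter]
        have : (Finset.univ.filter (fun v : V => v = a ∨ v = b)) = {a, b} := by
          ext v; simp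
        rw [this, Finset.card_pair hab]
    rw [h2]
    ring

lemma lower {V : Type} [Fintype V] [DecidableEq V] (G : SimpleGraph V) [DecidableRel G.Adj]
    (h3 : ∀ v, G.degree v = 3) (L : List (Sym2 V)) (hL : ∀ e ∈ L, e ∈ G.edgeSet)
    (hcov : ∀ e ∈ G.edgeSet, e ∈ L)
    (heven : ∀ v, Even (L.countP (fun e => decide (v ∈ e)))) :
    2 * Fintype.card V ≤ L.length := by
  have h4 : ∀ v : V, 4 ≤ L.countP (fun e => decide (v ∈ e)) := by
    intro v
    have h1 : G.incidenceFinset v ⊆ (L.filter (fun e => decide (v ∈ e))).toFinset := by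
      intro e he
      rw [mem_incidenceFinset] at he
      rw [List.mem_toFinset, List.mem_filter]
      exact ⟨hcov e he.1, by simpa using he.2⟩
    have h2 := (Finset.card_le_card h1).trans (List.toFinset_card_le _)
    rw [card_incidenceFinset_eq_degree, h3, ← List.countP_eq_length_filter] at h2
    have h5 := heven v
    rw [Nat.even_iff] at h5
    omega
  have h5 := sum_countP L (fun e he => G.not_isDiag_of_mem_edgeSet (hL e he))
  have h6 : ∑ v : V, 4 ≤ ∑ v : V, L.countP (fun e => decide (v ∈ e)) :=
    Finset.sum_le_sum (fun v _ => h4 v)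
  rw [h5, Finset.sum_const, Finset.card_univ, smul_eq_mul] at h6
  omega

/-! ### Edge cuts -/

lemma even_cut {V : Type} [Fintype V] [DecidableEq V] (G : SimpleGraph V) [DecidableRel G.Adj]
    (w : Sym2 V → ℕ) (h : ∀ v, Even (∑ e ∈ G.edgeFinset.filter (fun e => v ∈ e), w e))
    (S : Set V) : Even (∑ᶠ e ∈ edgeCut G S, w e) := by
  classical
  have h1 : edgeCut G S = ↑(G.edgeFinset.filter (fun e => e ∈ edgeCut G S)) := by
    ext e
    simp only [Finset.coe_filter, mem_edgeFinset, Set.mem_ofPred_eq]
    exact ⟨fun he => ⟨he.1, he⟩, fun he => he.2⟩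
  rw [h1, finsum_mem_coe_finset, Finset.sum_filter]
  have h2 : Even (∑ v ∈ Finset.univ.filter (fun v => v ∈ S),
      ∑ e ∈ G.edgeFinset.filter (fun e => v ∈ e), w e) :=
    Finset.even_sum _ (fun v _ => h v)
  have h3 : ∑ v ∈ Finset.univ.filter (fun v => v ∈ S),
      ∑ e ∈ G.edgeFinset.filter (fun e => v ∈ e), w e
      = ∑ e ∈ G.edgeFinset, ((if e ∈ edgeCut G S then w e else 0) +
          2 * (if ∀ v ∈ e, v ∈ S then w e else 0)) := by
    simp_rw [Finset.sum_filter]
    have : ∀ v : V, (if v ∈ S then ∑ e ∈ G.edgeFinset, (if v ∈ e then w e else 0) else 0)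
        = ∑ e ∈ G.edgeFinset, (if v ∈ S ∧ v ∈ e then w e else 0) := by
      intro v
      by_cases hv : v ∈ S <;> simp [hv]
    simp_rw [this]
    rw [Finset.sum_comm]
    refine Finset.sum_congr rfl (fun e he => ?_)
    rw [mem_edgeFinset] at he
    induction e using Sym2.ind with
    | _ a b =>
      have hab : a ≠ b := by
        rintro rfl
        exact G.loopless.irrefl _ he
      have h7 : ∀ v : V, (if v ∈ S ∧ v ∈ s(a, b) then w s(a, b) else 0) =
          (if v = a then (if a ∈ S then w s(a, b) else 0) else 0) +
          (if v = b then (if b ∈ S then w s(a, b) else 0) else 0) := by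
        intro v
        by_cases hva : v = a
        · subst hva
          by_cases hS : v ∈ S <;> simp [hS, hab]
        · by_cases hvb : v = b
          · subst hvb
            by_cases hS : v ∈ S <;> simp [hS, hva]
          · simp [hva, hvb]
      simp_rw [h7]
      rw [Finset.sum_add_distrib, Finset.sum_ite_eq', Finset.sum_ite_eq']
      simp only [Finset.mem_univ, if_true]
      have h8 : s(a, b) ∈ edgeCut G S ↔ (a ∈ S ∧ b ∉ S) ∨ (b ∈ S ∧ a ∉ S) := by
        constructor
        · rintro ⟨-, c, hc, d, hd, hcd⟩
          rcases Sym2.eq_iff.1 hcd with ⟨rfl, rfl⟩ | ⟨rfl, rfl⟩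
          · exact Or.inl ⟨hc, hd⟩
          · exact Or.inr ⟨hc, hd⟩
        · rintro (⟨ha, hb⟩ | ⟨hb, ha⟩)
          · exact ⟨he, a, ha, b, hb, rfl⟩
          · exact ⟨he, b, hb, a, ha, Sym2.eq_swap⟩
      have h9 : (∀ v ∈ s(a, b), v ∈ S) ↔ (a ∈ S ∧ b ∈ S) := by
        simp
      by_cases ha : a ∈ S <;> by_cases hb : b ∈ S <;> simp [h8, ha, hb]
      ring
  rw [h3, Finset.sum_add_distrib, ← Finset.mul_sum] at h2
  rw [Nat.even_iff] at *
  omega

/-! ### Local structure of cycles at a vertex of degree 3 -/

lemma local_parity {V : Type} [DecidableEq V] {G : SimpleGraph V} {u : V}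
    (p : G.Walk u u) (hp : p.IsCycle) (v a b c : V) (hab : a ≠ b) (hac : a ≠ c) (hbc : b ≠ c)
    (hN : ∀ z, G.Adj v z → z = a ∨ z = b ∨ z = c) :
    ((s(v, a) ∈ p.edges) ↔ ¬ ((s(v, b) ∈ p.edges) ↔ (s(v, c) ∈ p.edges))) := by
  have h1 := even_closed p v
  have hnd : p.edges.Nodup := hp.edges_nodup
  have h2 : p.edges.countP (fun e => decide (v ∈ e)) =
      (({s(v, a), s(v, b), s(v, c)} : Finset (Sym2 V)).filter (fun e => e ∈ p.edges)).card := by
    rw [List.countP_eq_length_filter, ← List.toFinset_card_of_nodup (hnd.filter _)]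
    congr 1
    ext e
    simp only [List.mem_toFinset, List.mem_filter, decide_eq_true_eq, Finset.mem_filter,
      Finset.mem_insert, Finset.mem_singleton]
    constructor
    · rintro ⟨he, hv⟩
      refine ⟨?_, he⟩
      obtain ⟨z, rfl⟩ := hv
      rcases hN z (p.adj_of_mem_edges he) with rfl | rfl | rfl
      · exact Or.inl rfl
      · exact Or.inr (Or.inl rfl)
      · exact Or.inr (Or.inr rfl)
    · rintro ⟨he | he | he, hm⟩ <;> subst he <;> exact ⟨hm, Sym2.mem_mk_left _ _⟩
  rw [h2] at h1
  have n1 : s(v, a) ≠ s(v, b) := by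
    intro h; exact hab (Sym2.congr_right.1 h)
  have n2 : s(v, a) ≠ s(v, c) := by
    intro h; exact hac (Sym2.congr_right.1 h)
  have n3 : s(v, b) ≠ s(v, c) := by
    intro h; exact hbc (Sym2.congr_right.1 h)
  by_cases ma : s(v, a) ∈ p.edges <;> by_cases mb : s(v, b) ∈ p.edges <;>
    by_cases mc : s(v, c) ∈ p.edges <;>
    simp only [Finset.filter_insert, Finset.filter_singleton, ma, mb, mc, if_true, if_false] at h1 <;>
    simp [ma, mb, mc] <;> revert h1 <;>
    simp [Finset.card_insert_of_notMem, n1, n2, n3, Nat.even_iff]

/-- At a vertex with one edge of weight 2 and two of weight 1, the two members through the edge of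
weight 2 are the member through the one and the member through the other edge of weight 1. -/
lemma vertex_rule {V : Type} [DecidableEq V] {G : SimpleGraph V} {n : ℕ}
    (F : Fin n → Σ u : V, G.Walk u u) (hF : ∀ i, (F i).2.IsCycle) (v a b c : V)
    (hab : a ≠ b) (hac : a ≠ c) (hbc : b ≠ c)
    (hN : ∀ z, G.Adj v z → z = a ∨ z = b ∨ z = c) (x y : Fin n)
    (h2 : (Finset.univ.filter (fun i => s(v, a) ∈ (F i).2.edges)).card = 2)
    (hx : Finset.univ.filter (fun i => s(v, b) ∈ (F i).2.edges) = {x})
    (hy : Finset.univ.filter (fun i => s(v, c) ∈ (F i).2.edges) = {y}) :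
    x ≠ y ∧ Finset.univ.filter (fun i => s(v, a) ∈ (F i).2.edges) = {x, y} := by
  have hx' : ∀ i, s(v, b) ∈ (F i).2.edges ↔ i = x := by
    intro i
    have := Finset.ext_iff.1 hx i
    simpa using this
  have hy' : ∀ i, s(v, c) ∈ (F i).2.edges ↔ i = y := by
    intro i
    have := Finset.ext_iff.1 hy i
    simpa using this
  have hm : ∀ i, s(v, a) ∈ (F i).2.edges ↔ ¬ (i = x ↔ i = y) := by
    intro i
    rw [← hx' i, ← hy' i]
    exact local_parity (F i).2 (hF i) v a b c hab hac hbc hN
  have hne : x ≠ y := by
    rintro rfl
    have : Finset.univ.filter (fun i => s(v, a) ∈ (F i).2.edges) = ∅ := by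
      ext i
      simp [hm]
    rw [this] at h2
    simp at h2
  refine ⟨hne, ?_⟩
  ext i
  simp only [Finset.mem_filter, Finset.mem_univ, true_and, hm, Finset.mem_insert,
    Finset.mem_singleton]
  constructor
  · intro h
    by_contra h'
    push Not at h'
    exact h (by simp [h'.1, h'.2])
  · rintro (rfl | rfl)
    · simp [hne]
    · simp [hne.symm]

lemma pair_rule {α : Type} [DecidableEq α] {x y x' y' : α}
    (h : ({x, y} : Finset α) = {x', y'}) : (x = x' ∧ y = y') ∨ (x = y' ∧ y = x') := by
  have h' : ({x, y} : Set α) = {x', y'} := by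
    have := congrArg (fun s : Finset α => (s : Set α)) h
    simpa using this
  exact Set.pair_eq_pair_iff.1 h'

/-! ### Tietze's graph -/

/-- The edges of Tietze's graph, i.e. of the Petersen graph with one vertex replaced by the
triangle `0, 10, 11`. -/
def E : List (Fin 12 × Fin 12) :=
  [(0,1),(1,2),(2,3),(3,4),(4,10),(11,5),(1,6),(2,7),(3,8),(4,9),(5,7),(7,9),(9,6),(6,8),(8,5),
    (0,10),(10,11),(11,0)]

/-- Adjacency in Tietze's graph. -/
def tAdj (a b : Fin 12) : Bool := E.contains (a, b) || E.contains (b, a)

/-- Tietze's graph. -/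
def T : SimpleGraph (Fin 12) where
  Adj a b := tAdj a b = true
  symm := ⟨by decide⟩
  loopless := ⟨by decide⟩

instance : DecidableRel T.Adj := fun a b => by
  change Decidable (tAdj a b = true); infer_instance

lemma T_degree : ∀ v, T.degree v = 3 := by decide

/-- parent pointers of breadth first search trees -/
def PN : ℕ := 0x6621ba21000066217a2100006621b32100000621ba2100006021ba2100006601ba2100004520ba21000066210a2100006621b02100006621ba0100006651ba4000004559ba43005466217321100066217a21000066217a21000066217321000006217a21000060217a21000066018a21000043207a21000066210a21000066217021000066217a01000066918a40000043998a4300046621732110006621b32100006621732100006621b32100000621b32100006021b32100006601b32100007520b32100006621032100006621b02100006621b90100006651b98000007558b98700506621732110000621ba21000006217a2100000621b32100000621ba2100000021ba2100000601ba2100000520ba21000006210a2100000621b02100000621ba0100000651ba4000000558ba4300540621732110006021ba21000060217a2100006021b32100000021ba2100006021ba2100006001ba2100004020ba21000060210a2100006021b02100006021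ba0100006051ba4000004059ba4300546021732110006601ba21000066018a2100006601b32100000601ba2100006001ba2100006601ba2100004500ba21000066010a2100006601b02100006601ba0100006601ba4000004509ba4300546601832110004520ba21000043207a2100007520b32100000520ba2100004020ba2100004500ba2100004520ba21000043200a2100007520b02100004520ba0100004550ba4000004550ba43005473207321100066210a21000066210a21000066210321000006210a21000060210a21000066010a21000043200a21000066210a21000066210021000066210a01000066910a40000043990a4300a46621032110006621b02100006621702100006621b02100000621b02100006021b02100006601b02100007520b02100006621002100006621b02100006621b00100006651b08000007558b087005b6621702110006621ba01000066217a0100006621b90100000621ba0100006021ba0100006601ba0100004520ba01000066210a0100006621b00100006621ba0100006651ba0000004559ba0700546621790110006651ba40000066918a4000006651b98000000651ba4000006051ba4000006601ba4000004550ba40000066910a4000006651b08000006651ba0000006651ba4000004559ba4000546691898010004559ba43000043998a4300007558b98700000558ba4300004059ba4300004509ba4300004550ba43000043990a4300007558b08700004559ba0700004559ba4000004559ba4300547328732200546621732110046621732110506621732110540621732110546021732110546601832110547320732110a466210321105b6621702110546621790110546691898010547328732200546621732110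

/-- depths in the breadth first search trees -/
def DN : ℕ := 0x113332223210013332423210103332243210110332223210113032223210113302223210113330223210113332023210113332203210113332220210113332223010113334223400442221332100013332423210013332423210003332443210010332423210013032423210013302423210013430423210013332023210013332403210013332420210013342423010013444523400042221332100103332243210003332443210103332243210100332243210103032243210103302243210104330243210103332043210103332203210103332240210103332244010104334254400402221332100110332223210010332423210100332243210110332223210110032223210110302223210110330223210110332023210110332203210110332220210110332223010110334223400440221332100113032223210013032423210103032243210110032223210113032223210113002223210113030223210113032023210113032203210113032220210113032223010113034223400442021332100113302223210013302423210103302243210110302223210113002223210113302223210113300223210113302023210113302203210113302220210113302223010113304223400442201332100113330223210013430423210104330243210110330223210113030223210113300223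210113330223210113430023210114330203210113330220210113330223010113330223400443320332100113332023210013332023210103332043210110332023210113032023210113302023210113430023210113332023210113332003210113332020210113342023010113444023400542221032100113332203210013332403210103332203210110332203210113032203210113302203210114330203210113332003210113332203210113332200210113332204010114334204400452221302100113332220210013332420210103332240210110332220210113032220210113302220210113330220210113332020210113332200210113332220210113332220010113334220400442221330100113332223010013342423010103332244010110332223010113032223010113302223010113330223010113342023010113332204010113332220010113332223010113334223000442231333000113334223400013444523400104334254400110334223400113034223400113304223400113330223400113444023400114334204400113334220400113334223000113334223400332213221000442221332100042221332100402221332100440221332100442021332100442201332100443320332100542221032100452221302100442221330100442231333000332213221000442221332100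

def idx (x y v : ℕ) : ℕ := (x * 13 + y) * 12 + v
def pr (x y v : ℕ) : ℕ := (PN / 16 ^ (idx x y v)) % 16
def dp (x y v : ℕ) : ℕ := (DN / 16 ^ (idx x y v)) % 16
def root (x y : ℕ) : Fin 12 :=
  if x ≠ 0 ∧ y ≠ 0 then 0 else if x ≠ 1 ∧ y ≠ 1 then 1 else 2

def chk (x y : Fin 13) (v : Fin 12) : Bool :=
  v.val == x.val || v.val == y.val || v == root x.val y.val ||
    (decide (pr x.val y.val v.val < 12) && tAdj v (Fin.ofNat 12 (pr x.val y.val v.val)) &&
      pr x.val y.val v.val != x.val && pr x.val y.val v.val != y.val &&
      decide (dp x.val y.val (pr x.val y.val v.val) < dp x.val y.val v.val))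

lemma chk_all : ∀ (x y : Fin 13) (v : Fin 12), chk x y v = true := by
  decide +kernel


lemma conn_aux (x y : Fin 13) : (T.induce {v : Fin 12 | v.val ≠ x.val ∧ v.val ≠ y.val}).Connected := by
  have hroot : (root x.val y.val).val ≠ x.val ∧ (root x.val y.val).val ≠ y.val := by
    revert x y
    decide
  have key : ∀ (k : ℕ) (v : Fin 12) (hv : v.val ≠ x.val ∧ v.val ≠ y.val),
      dp x.val y.val v.val ≤ k →
      (T.induce {v : Fin 12 | v.val ≠ x.val ∧ v.val ≠ y.val}).Reachable
        ⟨root x.val y.val, hroot⟩ ⟨v, hv⟩ := by
    intro k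
    induction k with
    | zero =>
      intro v hv hk
      have h := chk_all x y v
      simp only [chk, Bool.or_eq_true, Bool.and_eq_true, beq_iff_eq, decide_eq_true_eq,
        bne_iff_ne] at h
      rcases h with ((h | h) | h) | h
      · exact absurd h hv.1
      · exact absurd h hv.2
      · subst h; exact Reachable.refl _
      · omega
    | succ k ih =>
      intro v hv hk
      have h := chk_all x y v
      simp only [chk, Bool.or_eq_true, Bool.and_eq_true, beq_iff_eq, decide_eq_true_eq,
        bne_iff_ne] at h
      rcases h with ((h | h) | h) | ⟨⟨⟨⟨h1, h2⟩, h3⟩, h4⟩, h5⟩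
      · exact absurd h hv.1
      · exact absurd h hv.2
      · subst h; exact Reachable.refl _
      · have hval : (Fin.ofNat 12 (pr x.val y.val v.val)).val = pr x.val y.val v.val := by
          simp only [Fin.ofNat]
          exact Nat.mod_eq_of_lt h1
        have hu : (Fin.ofNat 12 (pr x.val y.val v.val)).val ≠ x.val ∧
            (Fin.ofNat 12 (pr x.val y.val v.val)).val ≠ y.val := by
          rw [hval]; exact ⟨h3, h4⟩
        refine (ih _ hu (by rw [hval]; omega)).trans ?_
        refine (SimpleGraph.Adj.reachable ?_).symm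
        exact h2
  have : Nonempty {v : Fin 12 | v.val ≠ x.val ∧ v.val ≠ y.val} := ⟨⟨_, hroot⟩⟩
  refine Connected.mk ?_
  rintro ⟨a, ha⟩ ⟨b, hb⟩
  exact (key _ a ha le_rfl).symm.trans (key _ b hb le_rfl)

lemma T_three : ThreeConnected T := by
  refine ⟨by simp, fun S hS => ?_⟩
  have h : S.card = 0 ∨ S.card = 1 ∨ S.card = 2 := by omega
  rcases h with h | h | h
  · rw [Finset.card_eq_zero] at h
    subst h
    have h1 := conn_aux 12 12
    have h2 : ({v : Fin 12 | v.val ≠ (12 : Fin 13).val ∧ v.val ≠ (12 : Fin 13).val} :
        Set (Fin 12)) = ((↑(∅ : Finset (Fin 12)) : Set (Fin 12)))ᶜ := by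
      ext v
      have : v.val ≠ 12 := by omega
      simp [this]
    rw [h2] at h1
    exact h1
  · obtain ⟨a, rfl⟩ := Finset.card_eq_one.1 h
    have h1 := conn_aux ⟨a.val, by omega⟩ ⟨a.val, by omega⟩
    have h2 : ({v : Fin 12 | v.val ≠ a.val ∧ v.val ≠ a.val} :
        Set (Fin 12)) = ((↑({a} : Finset (Fin 12)) : Set (Fin 12)))ᶜ := by
      ext v
      simp [Fin.ext_iff]
    rw [← h2]
    exact h1
  · obtain ⟨a, b, -, rfl⟩ := Finset.card_eq_two.1 h
    have h1 := conn_aux ⟨a.val, by omega⟩ ⟨b.val, by omega⟩
    have h2 : ({v : Fin 12 | v.val ≠ a.val ∧ v.val ≠ b.val} :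
        Set (Fin 12)) = ((↑({a, b} : Finset (Fin 12)) : Set (Fin 12)))ᶜ := by
      ext v
      simp [Fin.ext_iff]
    rw [← h2]
    exact h1

/-! ### Explicit tour and cover -/

def tour : T.Walk 0 0 :=
  .cons (show T.Adj 0 1 by decide) (.cons (show T.Adj 1 6 by decide)
  (.cons (show T.Adj 6 8 by decide) (.cons (show T.Adj 8 5 by decide)
  (.cons (show T.Adj 5 11 by decide) (.cons (show T.Adj 11 0 by decide)
  (.cons (show T.Adj 0 1 by decide) (.cons (show T.Adj 1 2 by decide)
  (.cons (show T.Adj 2 3 by decide) (.cons (show T.Adj 3 8 by decide)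
  (.cons (show T.Adj 8 6 by decide) (.cons (show T.Adj 6 9 by decide)
  (.cons (show T.Adj 9 7 by decide) (.cons (show T.Adj 7 2 by decide)
  (.cons (show T.Adj 2 3 by decide) (.cons (show T.Adj 3 4 by decide)
  (.cons (show T.Adj 4 10 by decide) (.cons (show T.Adj 10 11 by decide)
  (.cons (show T.Adj 11 5 by decide) (.cons (show T.Adj 5 7 by decide)
  (.cons (show T.Adj 7 9 by decide) (.cons (show T.Adj 9 4 by decide)
  (.cons (show T.Adj 4 10 by decide) (.cons (show T.Adj 10 0 by decide)
  .nil)))))))))))))))))))))))

def cyc1 : T.Walk 0 0 :=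
  .cons (show T.Adj 0 1 by decide) (.cons (show T.Adj 1 2 by decide)
  (.cons (show T.Adj 2 3 by decide) (.cons (show T.Adj 3 4 by decide)
  (.cons (show T.Adj 4 10 by decide) (.cons (show T.Adj 10 0 by decide) .nil)))))

def cyc2 : T.Walk 0 0 :=
  .cons (show T.Adj 0 1 by decide) (.cons (show T.Adj 1 6 by decide)
  (.cons (show T.Adj 6 8 by decide) (.cons (show T.Adj 8 5 by decide)
  (.cons (show T.Adj 5 11 by decide) (.cons (show T.Adj 11 0 by decide) .nil)))))

def cyc3 : T.Walk 2 2 :=
  .cons (show T.Adj 2 3 by decide) (.cons (show T.Adj 3 8 by decide)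
  (.cons (show T.Adj 8 6 by decide) (.cons (show T.Adj 6 9 by decide)
  (.cons (show T.Adj 9 7 by decide) (.cons (show T.Adj 7 2 by decide) .nil)))))

def cyc4 : T.Walk 4 4 :=
  .cons (show T.Adj 4 10 by decide) (.cons (show T.Adj 10 11 by decide)
  (.cons (show T.Adj 11 5 by decide) (.cons (show T.Adj 5 7 by decide)
  (.cons (show T.Adj 7 9 by decide) (.cons (show T.Adj 9 4 by decide) .nil)))))

lemma cyc1_isCycle : cyc1.IsCycle := by
  rw [Walk.isCycle_def, Walk.isTrail_def]
  refine ⟨by decide, by simp [cyc1], by decide⟩
lemma cyc2_isCycle : cyc2.IsCycle := by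
  rw [Walk.isCycle_def, Walk.isTrail_def]
  refine ⟨by decide, by simp [cyc2], by decide⟩
lemma cyc3_isCycle : cyc3.IsCycle := by
  rw [Walk.isCycle_def, Walk.isTrail_def]
  refine ⟨by decide, by simp [cyc3], by decide⟩
lemma cyc4_isCycle : cyc4.IsCycle := by
  rw [Walk.isCycle_def, Walk.isTrail_def]
  refine ⟨by decide, by simp [cyc4], by decide⟩

/-- The cycle cover of total length 24. -/
def cov : Fin 4 → Σ u : Fin 12, T.Walk u u :=
  ![⟨0, cyc1⟩, ⟨0, cyc2⟩, ⟨2, cyc3⟩, ⟨4, cyc4⟩]

lemma mem_tour : (24 : ℕ) ∈ tourLengths T := by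
  refine ⟨0, tour, ?_, by decide⟩
  intro e
  induction e using Sym2.ind with
  | _ a b =>
    intro h
    have h' : T.Adj a b := h
    revert a b
    decide

lemma mem_cover : (24 : ℕ) ∈ coverLengths T := by
  refine ⟨4, cov, ?_, ?_, by decide⟩
  · intro i
    fin_cases i
    · exact cyc1_isCycle
    · exact cyc2_isCycle
    · exact cyc3_isCycle
    · exact cyc4_isCycle
  · intro e
    induction e using Sym2.ind with
    | _ a b =>
      intro h
      have h' : T.Adj a b := h
      revert a b
      decide

lemma tour_lower : ∀ N ∈ tourLengths T, 24 ≤ N := by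
  rintro N ⟨v, p, hp, rfl⟩
  have h := lower T T_degree p.edges (fun e he => p.edges_subset_edgeSet he) hp
    (fun x => even_closed p x)
  rw [Walk.length_edges] at h
  simpa using h

lemma even_flat {V : Type} [DecidableEq V] {G : SimpleGraph V} (L : List (Σ u : V, G.Walk u u))
    (x : V) : Even ((L.flatMap (fun C => C.2.edges)).countP (fun e => decide (x ∈ e))) := by
  induction L with
  | nil => simp
  | cons C L ih =>
    rw [List.flatMap_cons, List.countP_append]
    exact (even_closed C.2 x).add ih

lemma cover_lower : ∀ N ∈ coverLengths T, 24 ≤ N := by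
  rintro N ⟨n, F, hF, hcov, rfl⟩
  have h := lower T T_degree ((List.ofFn F).flatMap (fun C => C.2.edges))
    (fun e he => by
      rw [List.mem_flatMap] at he
      obtain ⟨C, -, hC⟩ := he
      exact C.2.edges_subset_edgeSet hC)
    (fun e he => by
      obtain ⟨i, hi⟩ := hcov e he
      rw [List.mem_flatMap]
      exact ⟨F i, (List.mem_ofFn' F _).2 ⟨i, rfl⟩, hi⟩)
    (fun x => even_flat _ x)
  rw [List.length_flatMap, List.map_ofFn, List.sum_ofFn] at h
  simpa [Function.comp_def] using h

lemma scc_eq : SCC T = 24 := by
  unfold SCC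
  exact le_antisymm (Nat.sInf_le mem_cover) (le_csInf ⟨_, mem_cover⟩ cover_lower)

lemma cpp_eq : CPP T = 24 := by
  unfold CPP
  exact le_antisymm (Nat.sInf_le mem_tour) (le_csInf ⟨_, mem_tour⟩ tour_lower)

/-! ### The bad weight -/

/-- The perfect matching of weight 2. -/
def M : Finset (Sym2 (Fin 12)) := {s(0, 10), s(5, 11), s(1, 6), s(2, 7), s(3, 8), s(4, 9)}

/-- The bad eulerian weight: 2 on the perfect matching `M` and 1 elsewhere. -/
def wt (e : Sym2 (Fin 12)) : ℕ := if e ∈ M then 2 else 1

lemma wt_eulerian : IsEulerianWeight T wt := by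
  refine ⟨fun e _ => ?_, fun S => even_cut T wt ?_ S⟩
  · unfold wt
    split_ifs
    · exact Or.inr rfl
    · exact Or.inl rfl
  · decide +kernel

lemma no_cover : ¬ IsCoverable T wt := by
  rintro ⟨n, F, hF, hw⟩
  have h1 : ∀ a b : Fin 12, T.Adj a b → wt s(a, b) = 1 → ∃ x : Fin n,
      Finset.univ.filter (fun i => s(a, b) ∈ (F i).2.edges) = {x} := by
    intro a b hab hwt
    have := hw s(a, b) hab
    rw [hwt] at this
    exact Finset.card_eq_one.1 this
  have hN : ∀ v a b c : Fin 12, (∀ z, T.Adj v z → z = a ∨ z = b ∨ z = c) → a ≠ b → a ≠ c → b ≠ c →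
      T.Adj v a → T.Adj v b → T.Adj v c → wt s(v, a) = 2 →
      ∀ x y : Fin n, Finset.univ.filter (fun i => s(v, b) ∈ (F i).2.edges) = {x} →
      Finset.univ.filter (fun i => s(v, c) ∈ (F i).2.edges) = {y} →
      x ≠ y ∧ Finset.univ.filter (fun i => s(v, a) ∈ (F i).2.edges) = {x, y} := by
    intro v a b c h hab hac hbc ha hb hc hwa x y hx hy
    refine vertex_rule F hF v a b c hab hac hbc h x y ?_ hx hy
    rw [hw s(v, a) ha, hwa]
  obtain ⟨a, ha⟩ := h1 0 1 (by decide) (by decide)
  obtain ⟨b, hb⟩ := h1 1 2 (by decide) (by decide)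
  obtain ⟨c, hc⟩ := h1 2 3 (by decide) (by decide)
  obtain ⟨d, hd⟩ := h1 3 4 (by decide) (by decide)
  obtain ⟨e, he⟩ := h1 4 10 (by decide) (by decide)
  obtain ⟨f, hf⟩ := h1 10 11 (by decide) (by decide)
  obtain ⟨g, hg⟩ := h1 11 0 (by decide) (by decide)
  obtain ⟨h, hh⟩ := h1 5 7 (by decide) (by decide)
  obtain ⟨i, hi⟩ := h1 7 9 (by decide) (by decide)
  obtain ⟨j, hj⟩ := h1 9 6 (by decide) (by decide)
  obtain ⟨k, hk⟩ := h1 6 8 (by decide) (by decide)
  obtain ⟨l, hl⟩ := h1 8 5 (by decide) (by decide)
  have sw : ∀ (p q : Fin 12) (x : Fin n),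
      Finset.univ.filter (fun i => s(p, q) ∈ (F i).2.edges) = {x} →
      Finset.univ.filter (fun i => s(q, p) ∈ (F i).2.edges) = {x} := by
    intro p q x h
    rw [Sym2.eq_swap]; exact h
  have sw2 : ∀ (p q : Fin 12) (x y : Fin n),
      Finset.univ.filter (fun i => s(p, q) ∈ (F i).2.edges) = {x, y} →
      Finset.univ.filter (fun i => s(q, p) ∈ (F i).2.edges) = {x, y} := by
    intro p q x y h
    rw [Sym2.eq_swap]; exact h
  obtain ⟨n0, v0⟩ := hN 0 10 1 11 (by decide) (by decide) (by decide) (by decide) (by decide)
    (by decide) (by decide) (by decide) a g ha (sw _ _ _ hg)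
  obtain ⟨n10, v10⟩ := hN 10 0 4 11 (by decide) (by decide) (by decide) (by decide) (by decide)
    (by decide) (by decide) (by decide) e f (sw _ _ _ he) hf
  obtain ⟨n5, v5⟩ := hN 5 11 7 8 (by decide) (by decide) (by decide) (by decide) (by decide)
    (by decide) (by decide) (by decide) h l hh (sw _ _ _ hl)
  obtain ⟨n11, v11⟩ := hN 11 5 10 0 (by decide) (by decide) (by decide) (by decide) (by decide)
    (by decide) (by decide) (by decide) f g (sw _ _ _ hf) hg
  obtain ⟨n1, v1⟩ := hN 1 6 0 2 (by decide) (by decide) (by decide) (by decide) (by decide)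
    (by decide) (by decide) (by decide) a b (sw _ _ _ ha) hb
  obtain ⟨n6, v6⟩ := hN 6 1 9 8 (by decide) (by decide) (by decide) (by decide) (by decide)
    (by decide) (by decide) (by decide) j k (sw _ _ _ hj) hk
  obtain ⟨n2, v2⟩ := hN 2 7 1 3 (by decide) (by decide) (by decide) (by decide) (by decide)
    (by decide) (by decide) (by decide) b c (sw _ _ _ hb) hc
  obtain ⟨n7, v7⟩ := hN 7 2 5 9 (by decide) (by decide) (by decide) (by decide) (by decide)
    (by decide) (by decide) (by decide) h i (sw _ _ _ hh) hi
  obtain ⟨n3, v3⟩ := hN 3 8 2 4 (by decide) (by decide) (by decide) (by decide) (by decide)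
    (by decide) (by decide) (by decide) c d (sw _ _ _ hc) hd
  obtain ⟨n8, v8⟩ := hN 8 3 6 5 (by decide) (by decide) (by decide) (by decide) (by decide)
    (by decide) (by decide) (by decide) k l (sw _ _ _ hk) hl
  obtain ⟨n4, v4⟩ := hN 4 9 3 10 (by decide) (by decide) (by decide) (by decide) (by decide)
    (by decide) (by decide) (by decide) d e (sw _ _ _ hd) he
  obtain ⟨n9, v9⟩ := hN 9 4 7 6 (by decide) (by decide) (by decide) (by decide) (by decide)
    (by decide) (by decide) (by decide) i j (sw _ _ _ hi) hj
  have p0 := pair_rule (v0.symm.trans (sw2 _ _ _ _ v10))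
  have p5 := pair_rule (v5.symm.trans (sw2 _ _ _ _ v11))
  have p1 := pair_rule (v1.symm.trans (sw2 _ _ _ _ v6))
  have p2 := pair_rule (v2.symm.trans (sw2 _ _ _ _ v7))
  have p3 := pair_rule (v3.symm.trans (sw2 _ _ _ _ v8))
  have p4 := pair_rule (v4.symm.trans (sw2 _ _ _ _ v9))
  clear v0 v1 v2 v3 v4 v5 v6 v7 v8 v9 v10 v11 ha hb hc hd he hf hg hh hi hj hk hl h1 hN sw sw2 hw hF
  simp only [Fin.ext_iff, ne_eq] at *
  omega

/-- Tietze's graph is 3-connected and satisfies `SCC = CPP`, but it does not have the cycle cover
property. -/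
theorem result : ∃ (V : Type) (_ : Fintype V) (_ : DecidableEq V) (G : SimpleGraph V),
    ThreeConnected G ∧ (coverLengths G).Nonempty ∧ (tourLengths G).Nonempty ∧
      SCC G = CPP G ∧ ¬ CycleCoverProperty G :=
  ⟨Fin 12, inferInstance, inferInstance, T, T_three, ⟨_, mem_cover⟩, ⟨_, mem_tour⟩,
    scc_eq.trans cpp_eq.symm, fun h => no_cover (h wt wt_eulerian)⟩

end Pool.Agent.Results.MP_b9ebd9_co.TietzeCounterexample
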